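import Pool.Agent.R665.Art.Fin

/-!
# The Farrell–Jones conjecture for Artin groups

`C` is any class of groups with the closure properties `ClosedE C` that contains the Coxeter groups of
finite rank. The class of the groups that satisfy the K- and L-theoretic Farrell–Jones conjecture with
coefficients and finite wreath products is such a class (Coxeter groups of finite rank are `CAT(0)`
groups: Bartels and Lück, Wegner).

Let `M` be a Coxeter matrix over any set `V`, finite or infinite (the entry `0` stands for the label
infinity), and `Artin M` the Artin group of `M`.

(1) `Artin M` is in `C` if and only if its parabolic subgroups of finite rank without label infinity are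
in `C`. So the conjecture for all Artin groups is reduced to the Artin groups without label infinity. The
analogous reductions are known for the `K(π, 1)` conjecture and for the word problem (Godelle and
Paris), where the amalgamated products that occur cause no problem; the Farrell–Jones conjecture is not
known to pass to amalgamated products.

(2) If `Artin M` is in `C`, `N ≅ Artin M` is a normal subgroup of a group `G` such that `G ⧸ N` is in `C`,
and every element of `G` acts on `N` by a permutation of `V` which preserves the labels, composed with
an inner automorphism, then `G` is in `C`. The extension need not split, and `V` can be infinite.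

(3) If `V` is finite and the parabolic subgroup of a subset `T` of `V` is in `C`, then there is a
homomorphism of `Artin M` to a group in `C` which is injective on this parabolic subgroup.

Examples (with known facts, not formalised): Artin groups whose parabolic subgroups without label
infinity are direct products of spherical and affine Artin groups of type `A`, for instance the
virtual braid groups, up to finite index: the kernel of the map of the virtual braid group to the
symmetric group that maps the generators `σ_i` to `1` is the Artin group with the generators `δ_ij`
(`1 ≤ i ≠ j ≤ n`) and the relations `δ_ij δ_jk δ_ij = δ_jk δ_ij δ_jk` and `δ_ij δ_kl = δ_kl δ_ij` for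
different `i, j, k, l`, which is not of type FC. More generally, the virtual Artin groups of Bellingeri,
Paris and Thiel are extensions of (possibly infinitely generated) Artin groups by Coxeter groups as in
(2).

Outline of the proof. Let `W` be the Coxeter group of `M`, `T` a subset of `V` with parabolic subgroup
`W_T`. Each coset in `W / W_T` has a unique element `v` of minimal length, and for a generator `s` either
`s v` is minimal or `s v = v t` with `t` in `T` (Deodhar). A word over `V` so moves along the cosets and
writes a word over `T`. If the word is reduced then the word over `T` is reduced, which is seen from
the positive roots. By Matsumoto's theorem this gives a homomorphism of `Artin M` to the group of the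
functions with finitely many values `W / W_T → Artin T`, extended by `W`; on the parabolic subgroup
of `T` the value at the trivial coset is the identity. This gives (3), as the group of functions
with finitely many values, extended by `W`, is in `C` (`R630.FJ.fv_mem`). If the label of `x` and `y` is
infinity then `Artin M` is the amalgamated product of the parabolic subgroups of `V ∖ {x}` and
`V ∖ {y}`. So (1) follows from (3) and the theorem on amalgamated products with a homomorphism which is
injective on the amalgamated subgroup (`MP_8f66f0_al.EdgeInjectiveSplittings`), by induction, for finite
`V`; an infinitely generated Artin group is a directed colimit. For (2), partial automorphisms of finite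
labelled graphs are extended by cyclic gluing to automorphisms of finite labelled graphs with the same
subgraphs without label infinity (`R779.FJ.eppaC`), and (1) is applied to the larger graphs.
-/

set_option autoImplicit false

namespace Pool.Agent.Results.MP_9d1ffa_al.ArtinGroups

open Pool.Agent.Helper741 Pool.Agent.Y110.FJ

/-- the standard parabolic subgroup of `T` -/
def par {V : Type} (M : CoxeterMatrix V) (T : Set V) : Subgroup (Artin M) :=
  Subgroup.closure (Artin.gen M '' T)

/-- there is no label infinity between the elements of `T` -/
def InfFree {V : Type} (M : CoxeterMatrix V) (T : Set V) : Prop := ∀ i ∈ T, ∀ j ∈ T, M i j ≠ 0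

/-- `G` acts on its normal subgroup `N ≅ Artin M` by permutations of the generators which preserve the
labels, composed with inner automorphisms of `N` -/
def ActsByGraph {V : Type} (M : CoxeterMatrix V) {G : Type} [Group G] (N : Subgroup G)
    (e : Artin M ≃* N) : Prop :=
  ∀ g : G, ∃ (τ : Equiv.Perm V) (n : G), n ∈ N ∧ (∀ v w, M (τ v) (τ w) = M v w) ∧
    ∀ v : V, g * (e (Artin.gen M v) : G) * g⁻¹ = n * (e (Artin.gen M (τ v)) : G) * n⁻¹

/-- **Artin groups** -/
theorem result (C : ∀ (G : Type) [Group G], Prop) (hC : ClosedE C)
    (hW : ∀ (B : Type) [Finite B] (M : CoxeterMatrix B), C M.Group)
    (V : Type) (M : CoxeterMatrix V) :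
    (C (Artin M) ↔ ∀ T : Finset V, InfFree M (T : Set V) → C ↥(par M (T : Set V))) ∧
    (∀ (G : Type) [Group G] (N : Subgroup G) [N.Normal] (e : Artin M ≃* N), C N → C (G ⧸ N) →
      ActsByGraph M N e → C G) ∧
    (Finite V → ∀ T : Set V, C ↥(par M T) →
      ∃ (P : Type) (_ : Group P) (f : Artin M →* P), C P ∧ ∀ k ∈ par M T, f k = 1 → k = 1) := by
  refine ⟨Pool.Agent.R665.Art.artin_iff M hC hW, ?_, ?_⟩
  · intro G _ N _ e hN hQ hact
    have h1 : C (Artin M) := hC.base.of_injective _ _ e.toMonoidHom e.injective hN
    refine Pool.Agent.R665.Art.art_ext hC hW M (fun T hT => ?_) G N e hQ hact
    exact (Pool.Agent.R665.Art.C_par M hC.base _).1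
      ((Pool.Agent.R665.Art.artin_iff M hC hW).1 h1 T hT)
  · intro hV T hT
    exact Pool.Agent.R665.Art.exists_hom M hC hW T hT

end Pool.Agent.Results.MP_9d1ffa_al.ArtinGroups
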