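import Pool.Agent.R632.CM.Fin

/-!
# Farrell–Jones groups: splittings over commensurated subgroups

`C` is any class of groups with the closure properties `ClosedE C`, all of which are known for the
class of the groups that satisfy the Full Farrell–Jones Conjecture. It is not known whether this class
is closed under amalgamated products and HNN extensions.

`RealizesComm i` says that the embedding `i` of `Γ` in `P` realizes the abstract commensurator of `Γ`:
each isomorphism between subgroups of finite index of `Γ` is induced by the conjugation by an element
of `P`, and the centralizers in `P` of the subgroups of finite index of `Γ` are trivial. By the rigidity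
theorems of Mostow, Prasad and Margulis every irreducible lattice `Γ` with trivial centre in a
semisimple Lie group without compact factors that is not locally isomorphic to `SL_2(ℝ)` has such an
embedding, where `P` is a linear group over a number field or a lattice, so `P` satisfies the
Farrell–Jones conjecture. By Ivanov's theorem the same holds for mapping class groups, with
`P = Γ^±` up to finite index.

(1) If `K` is embedded in a group `P` of `C` in this way, then every amalgamated product of groups
`A` and `B` over `K`, where `K` has finite index in `A` and in `B`, is in `C`.

(2) If `M` is embedded in a group `P` of `C` in this way, then every HNN extension of `M`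
with associated subgroups of finite index is in `C`.

(3) Let `Γ` be a commensurated subgroup of a group `G`, embedded in `P` in this way, `P` in `C`, and let
`j : H → G` be a homomorphism. Let `H` be built from groups in `C` by amalgamated products, HNN
extensions and directed unions, such that `j k` does not centralize a subgroup of finite index of
`Γ` if `k ≠ 1` is in an edge group (`Splits C Γ H j`). Then `H` is in `C`. For instance `H = G` can be a
group that acts on a tree with vertex stabilizers in `C` and edge stabilizers contained in conjugates
of `Γ`.

Outline of the proof. The group `Γ` is commensurated in `G`, so the conjugation by `g` in `G` is an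
isomorphism between subgroups of finite index of `Γ` and gives an element `f g` of `P`. This is a
homomorphism `f : G → P` which extends the embedding of `Γ`, and `f g = 1` only if `g` centralizes a
subgroup of finite index of `Γ`. So `f ∘ j` is injective on the edge groups, and
`MP_8f66f0_al.EdgeInjectiveSplittings` applies.
-/

set_option autoImplicit false

namespace Pool.Agent.Results.MP_9d1ffa_al.CommensuratedEdgeGroups

open Pool.Agent.Y110.FJ Pool.Agent.R632.CM

theorem result (C : ∀ (G : Type) [Group G], Prop) (hC : ClosedE C) (P : Type) [Group P]
    (hP : C P) :
    (∀ (G : Type) [Group G] (A B K : Subgroup G) (i : K →* P), Amg A B K →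
      K.relIndex A ≠ 0 → K.relIndex B ≠ 0 → RealizesComm i → C G) ∧
    (∀ (M : Type) [Group M] (A B : Subgroup M) (φ : A ≃* B)
      (i : (HNNExtension.of : M →* HNNExtension M A B φ).range →* P),
      A.FiniteIndex → B.FiniteIndex → RealizesComm i → C (HNNExtension M A B φ)) ∧
    (∀ (G : Type) [Group G] (Γ : Subgroup G) (i : Γ →* P), Commensurated Γ → RealizesComm i →
      ∀ (H : Type) [Group H] (j : H →* G), Splits C Γ H j → C H) :=
  ⟨fun _ _ A B K i hamg hA hB hi => amalgam_fin hC A B K hamg hA hB i hi hP,
    fun _ _ A B φ i hA hB hi => hnn_fin hC A B φ hA hB i hi hP,
    fun _ _ _ i hΓ hi H _ j h => main hC hΓ i hi hP H j h⟩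

end Pool.Agent.Results.MP_9d1ffa_al.CommensuratedEdgeGroups
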