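import Pool.Agent.R630.LP.Per

/-!
# Extensions in which a power of each conjugation is locally inner

`C` is any class of groups with the closure properties `ClosedE C`, all of which are known for the
class of the groups that satisfy the K- and L-theoretic Farrell–Jones conjecture with coefficients and
finite wreath products. `N` is a normal subgroup of `G` with `G ⧸ N` in `C`. In order to show that `G`
is in `C` one has to treat the groups `N⟨g⟩`, that is, the mapping tori of the automorphisms of `N`
induced by the elements `g` of `G`. The realization criterion (`MP_490288_al.RealizationCriterion`)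
says that it is enough to realize the conjugation by `g` on each finite subset of `N` in some group of
`C`. Here it is shown that it is enough to realize a positive power of `g`, which may depend on the
finite subset: the functions `i ↦ f (g ^ i * x * g ^ (-i))` on the integers modulo `k`, extended by
the cyclic permutations with one correction, realize `g` itself.

So no single element of `G` must have a power with a property; only the restrictions to finite sets of
the powers matter, and the exponents may be unbounded.
-/

set_option autoImplicit false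

namespace Pool.Agent.Results.MP_9d1ffa_al.LocallyTorsion

open Pool.Agent.Y110.FJ Pool.Agent.R630.LP

/-- every automorphism of `A` has a positive power which is inner -/
def TorsionOut (A : Type) [Group A] : Prop :=
  ∀ α : MulAut A, ∃ (k : ℕ) (a : A), 0 < k ∧ α ^ k = MulAut.conj a

/-- the set `S` of subgroups is directed and has the union `N` -/
def DirectedUnion {G : Type} [Group G] (S : Set (Subgroup G)) (N : Subgroup G) : Prop :=
  S.Nonempty ∧ (∀ A ∈ S, ∀ B ∈ S, ∃ D ∈ S, A ≤ D ∧ B ≤ D) ∧ (∀ A ∈ S, A ≤ N) ∧
    ∀ x ∈ N, ∃ A ∈ S, x ∈ A

/-- Let `C` be a class of groups with the closure properties `ClosedE C`, `N` a normal subgroup of `G`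
and `G ⧸ N` in `C`.
(1) `G` is in `C` if for each `g` in `G` and each finite subset `E` of `N` there are `k > 0`, a group
`P` in `C`, an injective homomorphism `f` to `P` from the subgroup generated by the sets
`g ^ i E g ^ (-i)`, `i ≤ k`, and `p` in `P` with `f (g ^ k x g ^ (-k)) = p f(x) p⁻¹` for `x` in `E`.
(2) Let `N` be in `C`. `G` is in `C` if for each `g` in `G` and each finite subset `E` of `N` there are
`k > 0` and `n` in `N` with `g ^ k x g ^ (-k) = n x n⁻¹` for all `x` in `E`.
(3) Let `N` be in `C`. `G` is in `C` if each element of `N` commutes with some positive power of each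
element of `G`.
(4) `G` is in `C` if `N` is the union of a directed set of groups `A` in `C` such that `A` has a torsion
outer automorphism group and each element of `G` has a positive power which normalizes `A`. -/
theorem result {C : ∀ (G : Type) [Group G], Prop} (hC : ClosedE C) (G : Type) [Group G]
    (N : Subgroup G) [N.Normal] (hQ : C (G ⧸ N)) :
    ((∀ (g : G) (E : Set G), E.Finite → E ⊆ N → PowRealized C g E) → C G) ∧
    (C N → (∀ (g : G) (E : Set G), E.Finite → E ⊆ N → ∃ (k : ℕ) (n : G), 0 < k ∧ n ∈ N ∧
      ∀ x ∈ E, g ^ k * x * (g ^ k)⁻¹ = n * x * n⁻¹) → C G) ∧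
    (C N → (∀ g : G, ∀ x ∈ N, ∃ k : ℕ, 0 < k ∧ g ^ k * x = x * g ^ k) → C G) ∧
    (∀ S : Set (Subgroup G), DirectedUnion S N → (∀ A ∈ S, C A) → (∀ A ∈ S, TorsionOut A) →
      (∀ g : G, ∀ A ∈ S, ∃ k : ℕ, 0 < k ∧ ∀ x : G, x ∈ A ↔ g ^ k * x * (g ^ k)⁻¹ ∈ A) → C G) :=
  ⟨pow_crit hC N hQ, fun hN h => inner hC N hN hQ h, fun hN h => orbits hC N hN hQ h,
    fun S hS h1 h2 h3 => torsion_out hC N hQ S hS.1 hS.2.1 hS.2.2.1 hS.2.2.2 h1 h2 h3⟩

end Pool.Agent.Results.MP_9d1ffa_al.LocallyTorsion
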