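import Pool.Agent.R615.SC.Main

/-!
# Groups of homeomorphisms of locally compact scattered spaces

Let `C` be a class of groups with the closure properties of the class of groups that satisfy the
Farrell-Jones conjecture. If `G` acts faithfully on a locally compact Hausdorff scattered space by
homeomorphisms with compact support and all its groups of germs are in `C`, then `G` is in `C`.
-/

set_option autoImplicit false

namespace Pool.Agent.Results.MP_9d1ffa_al.ScatteredSpaces

open Pool.Agent.Y110.FJ Pool.Agent.R615.SC

theorem result {C : ∀ (G : Type) [Group G], Prop} (hC : ClosedE C)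
    {G X : Type} [Group G] [MulAction G X] [FaithfulSMul G X]
    [TopologicalSpace X] [T2Space X] [LocallyCompactSpace X] [ContinuousConstSMul G X]
    (hS : Scattered X) (hcs : ∀ g : G, ∃ K : Set X, IsCompact K ∧ ∀ x ∉ K, g • x = x)
    (hg : ∀ x : X, C (Germ G x)) : C G :=
  main hC hS hcs hg

end Pool.Agent.Results.MP_9d1ffa_al.ScatteredSpaces
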